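import Pool.Agent.Helper36.TC.Defs

set_option autoImplicit false
set_option linter.unusedSectionVars false

open MeasureTheory Set Metric Module
open scoped Topology

namespace TC

variable {V : Type*} [NormedAddCommGroup V] [NormedSpace ℝ V] [FiniteDimensional ℝ V] [MeasurableSpace V] [BorelSpace V]

theorem hull_lin_isCompact_segment (p : V) : IsCompact (segment ℝ (0:V) p) := by
  rw [segment_eq_image]
  exact isCompact_Icc.image (by fun_prop)

theorem hull_lin_mem {p : V} {t : ℝ} (ht : 0 ≤ t) (y : V) :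
    y ∈ cthickening 1 (segment ℝ 0 (t • p)) ↔ ∃ a : ℝ, 0 ≤ a ∧ a ≤ t ∧ ‖y - a • p‖ ≤ 1 := by
  rw [(hull_lin_isCompact_segment (t • p)).cthickening_eq_biUnion_closedBall zero_le_one]
  simp only [mem_iUnion, mem_closedBall, dist_eq_norm]
  constructor
  · rintro ⟨x, hx, hy⟩
    rw [segment_eq_image] at hx
    obtain ⟨r, ⟨hr0, hr1⟩, rfl⟩ := hx
    refine ⟨r * t, mul_nonneg hr0 ht, by nlinarith, ?_⟩
    simpa [mul_smul] using hy
  · rintro ⟨a, ha0, hat, hy⟩
    refine ⟨a • p, ?_, hy⟩
    rw [segment_eq_image]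
    rcases eq_or_lt_of_le ht with h0 | h0
    · have ha : a = 0 := le_antisymm (hat.trans h0.symm.le) ha0
      refine ⟨0, ⟨le_rfl, zero_le_one⟩, ?_⟩
      simp [ha]
    · refine ⟨a / t, ⟨by positivity, (div_le_one h0).2 hat⟩, ?_⟩
      simp only [smul_zero, zero_add, smul_smul]
      rw [div_mul_cancel₀ _ h0.ne']

theorem hull_lin_finite (μ : Measure V) [μ.IsAddHaarMeasure] (p : V) :
    μ (cthickening 1 (segment ℝ 0 p)) ≠ ⊤ :=
  ((hull_lin_isCompact_segment p).cthickening (r := 1)).measure_lt_top.ne

theorem hull_lin_add (μ : Measure V) [μ.IsAddHaarMeasure] (p : V) {s t : ℝ} (hs : 0 ≤ s)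
    (ht : 0 ≤ t) :
    μ.real (cthickening 1 (segment ℝ 0 ((s + t) • p))) + μ.real (closedBall (0:V) 1) =
      μ.real (cthickening 1 (segment ℝ 0 (s • p))) +
      μ.real (cthickening 1 (segment ℝ 0 (t • p))) := by
  set T : Set V := (fun y => -(s • p) + y) ⁻¹' (cthickening 1 (segment ℝ 0 (t • p))) with hT
  have hTm : MeasurableSet T :=
    (isClosed_cthickening.preimage (by fun_prop)).measurableSet
  have hTμ : μ T = μ (cthickening 1 (segment ℝ 0 (t • p))) := measure_preimage_add μ _ _
  have hU : cthickening 1 (segment ℝ 0 ((s + t) • p)) =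
      cthickening 1 (segment ℝ 0 (s • p)) ∪ T := by
    ext y
    rw [mem_union, hull_lin_mem (add_nonneg hs ht), hull_lin_mem hs, hT, mem_preimage,
      hull_lin_mem ht]
    constructor
    · rintro ⟨a, h0, h1, h2⟩
      rcases le_total a s with h | h
      · exact Or.inl ⟨a, h0, h, h2⟩
      · refine Or.inr ⟨a - s, by linarith, by linarith, ?_⟩
        have : -(s • p) + y - (a - s) • p = y - a • p := by
          rw [sub_smul]; abel
        rw [this]
        exact h2
    · rintro (⟨a, h0, h1, h2⟩ | ⟨a, h0, h1, h2⟩)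
      · exact ⟨a, h0, by linarith, h2⟩
      · refine ⟨a + s, by linarith, by linarith, ?_⟩
        have : y - (a + s) • p = -(s • p) + y - a • p := by
          rw [add_smul]; abel
        rw [this]
        exact h2
  have hI : cthickening 1 (segment ℝ 0 (s • p)) ∩ T = closedBall (s • p) 1 := by
    ext y
    rw [mem_inter_iff, hull_lin_mem hs, hT, mem_preimage, hull_lin_mem ht, mem_closedBall,
      dist_eq_norm]
    constructor
    · rintro ⟨⟨a, h0, h1, h2⟩, ⟨b, h3, h4, h5⟩⟩
      have h6 : -(s • p) + y - b • p = y - (s + b) • p := by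
        rw [add_smul]; abel
      rw [h6] at h5
      rcases eq_or_lt_of_le (show a ≤ s + b by linarith) with h7 | h7
      · have ha : a = s := by linarith
        rw [← ha]
        exact h2
      · have h8 : 0 < s + b - a := by linarith
        have h9 : y - s • p = (b / (s + b - a)) • (y - a • p) +
            ((s - a) / (s + b - a)) • (y - (s + b) • p) := by
          have e1 : b / (s + b - a) + (s - a) / (s + b - a) = 1 := by
            field_simp; ring
          have e2 : b / (s + b - a) * a + (s - a) / (s + b - a) * (s + b) = s := by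
            field_simp; ring
          calc y - s • p = (b / (s + b - a) + (s - a) / (s + b - a)) • y -
                (b / (s + b - a) * a + (s - a) / (s + b - a) * (s + b)) • p := by
                rw [e1, e2, one_smul]
            _ = _ := by
                rw [add_smul, add_smul, smul_sub, smul_sub, smul_smul, smul_smul]; abel
        have hb : 0 ≤ b / (s + b - a) := div_nonneg h3 h8.le
        have hc : 0 ≤ (s - a) / (s + b - a) := div_nonneg (by linarith) h8.le
        have e1 : b / (s + b - a) + (s - a) / (s + b - a) = 1 := by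
          field_simp; ring
        rw [h9]
        calc ‖(b / (s + b - a)) • (y - a • p) + ((s - a) / (s + b - a)) • (y - (s + b) • p)‖
            ≤ ‖(b / (s + b - a)) • (y - a • p)‖ + ‖((s - a) / (s + b - a)) • (y - (s + b) • p)‖ :=
              norm_add_le _ _
          _ = b / (s + b - a) * ‖y - a • p‖ + (s - a) / (s + b - a) * ‖y - (s + b) • p‖ := by
              rw [norm_smul, norm_smul, Real.norm_of_nonneg hb, Real.norm_of_nonneg hc]
          _ ≤ b / (s + b - a) * 1 + (s - a) / (s + b - a) * 1 := by gcongr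
          _ = 1 := by rw [mul_one, mul_one, e1]
    · intro h
      refine ⟨⟨s, hs, le_rfl, h⟩, ⟨0, le_rfl, ht, ?_⟩⟩
      have : -(s • p) + y - (0:ℝ) • p = y - s • p := by
        rw [zero_smul]; abel
      rw [this]
      exact h
  have h1 := measure_union_add_inter (μ := μ) (cthickening 1 (segment ℝ 0 (s • p))) hTm
  rw [← hU, hI, hTμ] at h1
  have hball : μ (closedBall (s • p) 1) = μ (closedBall (0:V) 1) :=
    Measure.addHaar_closedBall_center μ _ _
  rw [hball] at h1
  have h2 := congrArg ENNReal.toReal h1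
  rw [ENNReal.toReal_add (hull_lin_finite μ _) (isCompact_closedBall (0:V) 1).measure_lt_top.ne,
    ENNReal.toReal_add (hull_lin_finite μ _) (hull_lin_finite μ _)] at h2
  exact h2

theorem hull_lin_mono (μ : Measure V) [μ.IsAddHaarMeasure] (p : V) {s t : ℝ} (hs : 0 ≤ s)
    (hst : s ≤ t) :
    μ.real (cthickening 1 (segment ℝ 0 (s • p))) ≤
      μ.real (cthickening 1 (segment ℝ 0 (t • p))) := by
  apply measureReal_mono _ (hull_lin_finite μ _)
  intro y hy
  rw [hull_lin_mem hs] at hy
  rw [hull_lin_mem (hs.trans hst)]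
  obtain ⟨a, h0, h1, h2⟩ := hy
  exact ⟨a, h0, h1.trans hst, h2⟩

/-- monotone additive functions on the nonnegative reals are linear -/
theorem hull_lin_cauchy (w : ℝ → ℝ) (hadd : ∀ s t, 0 ≤ s → 0 ≤ t → w (s + t) = w s + w t)
    (hmono : ∀ s t, 0 ≤ s → s ≤ t → w s ≤ w t) {t : ℝ} (ht : 0 ≤ t) : w t = t * w 1 := by
  have h0 : w 0 = 0 := by
    have := hadd 0 0 le_rfl le_rfl
    rw [add_zero] at this
    linarith
  have hn : ∀ (n : ℕ) (s : ℝ), 0 ≤ s → w (n * s) = n * w s := by
    intro n s hs
    induction n with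
    | zero => simp [h0]
    | succ n ih =>
      push_cast
      rw [add_mul, one_mul, hadd _ _ (by positivity) hs, ih]
      ring
  have h1 : 0 ≤ w 1 := h0 ▸ hmono 0 1 le_rfl zero_le_one
  have key : ∀ n : ℕ, (n : ℝ) * |w t - t * w 1| ≤ w 1 := by
    intro n
    have hnt : 0 ≤ (n : ℝ) * t := by positivity
    have h2 := Nat.floor_le hnt
    have h3 := (Nat.lt_floor_add_one ((n : ℝ) * t)).le
    set m := ⌊(n : ℝ) * t⌋₊
    have h4 := hmono _ _ (Nat.cast_nonneg m) h2
    have h5 := hmono _ _ hnt h3
    have h6 : w (m : ℝ) = m * w 1 := by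
      have := hn m 1 zero_le_one
      rwa [mul_one] at this
    have h7 : w ((m : ℝ) + 1) = (m + 1) * w 1 := by
      rw [hadd _ _ (Nat.cast_nonneg m) zero_le_one, h6]; ring
    rw [h6, hn n t ht] at h4
    rw [h7, hn n t ht] at h5
    have h8 : (n : ℝ) * |w t - t * w 1| = |(n : ℝ) * w t - n * t * w 1| := by
      rw [← abs_of_nonneg (Nat.cast_nonneg (α := ℝ) n), ← abs_mul,
        abs_of_nonneg (Nat.cast_nonneg (α := ℝ) n)]
      congr 1
      ring
    rw [h8, abs_le]
    constructor <;> nlinarith
  by_contra hne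
  have hpos : 0 < |w t - t * w 1| := abs_pos.2 (sub_ne_zero.2 hne)
  obtain ⟨n, hn'⟩ := exists_nat_gt (w 1 / |w t - t * w 1|)
  rw [div_lt_iff₀ hpos] at hn'
  exact absurd (key n) (not_le.2 hn')

theorem hull_lin (μ : Measure V) [μ.IsAddHaarMeasure] [Nontrivial V] {c : ENNReal}
    (h : ∀ p : V, ‖p‖ = 2 → μ (cthickening 1 (segment ℝ 0 p)) = c) :
    ∃ k : ℝ, ∀ x : V, μ.real (cthickening 1 (segment ℝ 0 x)) = μ.real (closedBall (0:V) 1) + k * ‖x‖ := by
  refine ⟨(c.toReal - μ.real (closedBall (0:V) 1)) / 2, ?_⟩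
  intro x
  rcases eq_or_ne x 0 with rfl | hx
  · rw [segment_same, cthickening_singleton _ zero_le_one]
    simp
  have hn : 0 < ‖x‖ := norm_pos_iff.2 hx
  set p : V := (2 / ‖x‖) • x with hp
  have hpn : ‖p‖ = 2 := by
    rw [hp, norm_smul, Real.norm_of_nonneg (by positivity)]
    field_simp
  have hxp : x = (‖x‖ / 2) • p := by
    rw [hp, smul_smul]
    have : ‖x‖ / 2 * (2 / ‖x‖) = 1 := by field_simp
    rw [this, one_smul]
  have hlin := hull_lin_cauchy
    (fun t => μ.real (cthickening 1 (segment ℝ 0 (t • p))) - μ.real (closedBall (0:V) 1))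
    (fun s t hs ht => by
      have := hull_lin_add μ p hs ht
      linarith)
    (fun s t hs hst => by
      have := hull_lin_mono μ p hs hst
      linarith)
    (t := ‖x‖ / 2) (by positivity)
  simp only [one_smul] at hlin
  rw [← hxp] at hlin
  have h1 : μ.real (cthickening 1 (segment ℝ 0 p)) = c.toReal := by
    rw [Measure.real, h p hpn]
  rw [h1] at hlin
  linarith

end TC
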