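import Pool.Agent.Helper36.TC.Defs

set_option autoImplicit false
set_option linter.unusedSectionVars false

open MeasureTheory Set Metric Module Filter
open scoped Topology

namespace TC

variable {V : Type*} [NormedAddCommGroup V] [NormedSpace ℝ V] [FiniteDimensional ℝ V] [MeasurableSpace V] [BorelSpace V]

/-- the cone function -/
private noncomputable def tf (y : V) : ℝ := max 0 (1 - ‖y‖)

private theorem tf_cont : Continuous (tf : V → ℝ) := by
  unfold tf
  fun_prop

private theorem tf_lip (x y : V) : |tf x - tf y| ≤ ‖x - y‖ := by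
  unfold tf
  have h1 := abs_max_sub_max_le_abs (1 - ‖x‖) (1 - ‖y‖) 0
  rw [max_comm _ (0:ℝ), max_comm _ (0:ℝ)] at h1
  refine h1.trans ?_
  have : (1 - ‖x‖) - (1 - ‖y‖) = ‖y‖ - ‖x‖ := by ring
  rw [this, ← norm_sub_rev y x]
  exact abs_norm_sub_norm_le y x

private theorem tf_zero {x : V} (h : 1 ≤ ‖x‖) : tf x = 0 := by
  unfold tf
  exact max_eq_left (by linarith)

private theorem tf_supp : HasCompactSupport (tf : V → ℝ) := by
  refine HasCompactSupport.of_support_subset_isCompact (isCompact_closedBall (0:V) 1) ?_
  intro x hx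
  rw [mem_closedBall, dist_zero_right]
  by_contra h
  exact hx (tf_zero (not_le.1 h).le)

private theorem tf_deriv_in {x : V} (hx : Smooth x) (h : ‖x‖ < 1) (a : V) :
    HasDerivAt (fun t : ℝ => tf (x + t • a)) (-(ND x a)) 0 := by
  have h1 : HasDerivAt (fun t : ℝ => 1 - ‖x + t • a‖) (-(ND x a)) 0 := by
    simpa using (nd_hasDeriv hx a).const_sub 1
  refine h1.congr_of_eventuallyEq ?_
  have h2 : ContinuousAt (fun t : ℝ => ‖x + t • a‖) 0 := by fun_prop
  have h3 : ∀ᶠ t : ℝ in 𝓝 0, ‖x + t • a‖ < 1 := by
    apply h2.eventually_lt continuousAt_const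
    simpa using h
  filter_upwards [h3] with t ht
  unfold tf
  exact max_eq_right (by linarith)

private theorem tf_deriv_out {x : V} (h : 1 < ‖x‖) (a : V) :
    HasDerivAt (fun t : ℝ => tf (x + t • a)) 0 0 := by
  refine (hasDerivAt_const (0:ℝ) (0:ℝ)).congr_of_eventuallyEq ?_
  have h2 : ContinuousAt (fun t : ℝ => ‖x + t • a‖) 0 := by fun_prop
  have h3 : ∀ᶠ t : ℝ in 𝓝 0, 1 < ‖x + t • a‖ := by
    apply continuousAt_const.eventually_lt h2
    simpa using h
  filter_upwards [h3] with t ht
  exact tf_zero ht.le

theorem trans_inv (μ : Measure V) [μ.IsAddHaarMeasure] [Nontrivial V] (w : V →L[ℝ] ℝ) {a : V} (h : w a = 0) :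
    ∫ x in closedBall (0:V) 1, Real.sign (w x) * ND x a ∂μ = 0 := by
  have hwm : Measurable (fun x : V => Real.sign (w x)) :=
    measurable_rsign.comp w.continuous.measurable
  -- integrability of sign (w x) * f (x + b)
  have hint : ∀ b : V, Integrable (fun x : V => Real.sign (w x) * tf (x + b)) μ := by
    intro b
    have h1 : Integrable (fun x : V => tf (x + b)) μ :=
      (tf_cont.integrable_of_hasCompactSupport tf_supp).comp_add_right b
    refine h1.bdd_mul (c := 1) hwm.aestronglyMeasurable ?_
    exact Eventually.of_forall fun x => by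
      rw [Real.norm_eq_abs]; exact abs_sign_le _
  have hinv : ∀ t : ℝ, ∫ x, Real.sign (w x) * tf (x + t • a) ∂μ =
      ∫ x, Real.sign (w x) * tf x ∂μ := by
    intro t
    have h1 := integral_add_right_eq_self (μ := μ) (fun x : V => Real.sign (w x) * tf x) (t • a)
    rw [← h1]
    apply integral_congr_ae
    filter_upwards with x
    rw [map_add, map_smul, h, smul_zero, add_zero]
  let tt : ℕ → ℝ := fun n => 1 / ((n : ℝ) + 1)
  have htpos : ∀ n, 0 < tt n := fun n => by simp only [tt]; positivity
  have htle : ∀ n, tt n ≤ 1 := fun n => by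
    simp only [tt]
    rw [div_le_one (by positivity)]
    have : (0:ℝ) ≤ n := Nat.cast_nonneg n
    linarith
  let F : ℕ → V → ℝ := fun n x => Real.sign (w x) * ((tt n)⁻¹ * (tf (x + tt n • a) - tf x))
  have hF0 : ∀ n, ∫ x, F n x ∂μ = 0 := by
    intro n
    have h1 : ∀ x, F n x = (tt n)⁻¹ * (Real.sign (w x) * tf (x + tt n • a) -
        Real.sign (w x) * tf x) := fun x => by simp only [F]; ring
    simp_rw [h1]
    rw [integral_const_mul, integral_sub (hint _) (by simpa using hint 0), hinv, sub_self,
      mul_zero]
  have hlim : Tendsto (fun n => ∫ x, F n x ∂μ) atTop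
      (𝓝 (∫ x, (closedBall (0:V) 1).indicator (fun x => -(Real.sign (w x) * ND x a)) x ∂μ)) := by
    refine tendsto_integral_of_dominated_convergence
      ((closedBall (0:V) (1 + ‖a‖)).indicator (fun _ => ‖a‖)) ?_ ?_ ?_ ?_
    · intro n
      apply Measurable.aestronglyMeasurable
      apply hwm.mul
      apply Measurable.const_mul
      apply Measurable.sub
      · exact (tf_cont.comp (continuous_id.add continuous_const)).measurable
      · exact tf_cont.measurable
    · rw [integrable_indicator_iff isClosed_closedBall.measurableSet]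
      exact integrableOn_const (isCompact_closedBall (0:V) _).measure_lt_top.ne
    · intro n
      filter_upwards with x
      by_cases hx : x ∈ closedBall (0:V) (1 + ‖a‖)
      · rw [indicator_of_mem hx, Real.norm_eq_abs]
        simp only [F]
        rw [abs_mul, abs_mul, abs_of_pos (inv_pos.2 (htpos n))]
        have h1 := tf_lip (x + tt n • a) x
        rw [add_sub_cancel_left, norm_smul, Real.norm_of_nonneg (htpos n).le] at h1
        calc |Real.sign (w x)| * ((tt n)⁻¹ * |tf (x + tt n • a) - tf x|)
            ≤ 1 * ((tt n)⁻¹ * (tt n * ‖a‖)) := by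
              apply mul_le_mul (abs_sign_le _) _ (by have := htpos n; positivity) zero_le_one
              exact mul_le_mul_of_nonneg_left h1 (inv_pos.2 (htpos n)).le
          _ = ‖a‖ := by
              rw [one_mul, ← mul_assoc, inv_mul_cancel₀ (htpos n).ne', one_mul]
      · rw [indicator_of_notMem hx]
        rw [mem_closedBall, dist_zero_right, not_le] at hx
        have h1 : tf x = 0 := tf_zero (by linarith [norm_nonneg a])
        have h2 : tf (x + tt n • a) = 0 := by
          apply tf_zero
          have h3 : ‖x‖ ≤ ‖x + tt n • a‖ + ‖tt n • a‖ := by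
            have := norm_sub_le (x + tt n • a) (tt n • a)
            rwa [add_sub_cancel_right] at this
          rw [norm_smul, Real.norm_of_nonneg (htpos n).le] at h3
          have h4 : tt n * ‖a‖ ≤ 1 * ‖a‖ := mul_le_mul_of_nonneg_right (htle n) (norm_nonneg a)
          linarith
        simp only [F]
        rw [h1, h2]
        simp
    · have hsph : ∀ᵐ x : V ∂μ, ‖x‖ ≠ 1 := by
        have h1 : μ (sphere (0:V) 1) = 0 := Measure.addHaar_sphere μ 0 1
        rw [ae_iff]
        convert h1 using 2
        ext x
        simp
      filter_upwards [ae_smooth μ, hsph] with x hx hx1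
      have htt : Tendsto tt atTop (𝓝[≠] 0) := by
        rw [tendsto_nhdsWithin_iff]
        refine ⟨tendsto_one_div_add_atTop_nhds_zero_nat, ?_⟩
        exact Eventually.of_forall fun n => (htpos n).ne'
      rcases lt_or_gt_of_ne hx1 with hlt | hgt
      · have hmem : x ∈ closedBall (0:V) 1 := by
          rw [mem_closedBall, dist_zero_right]; exact hlt.le
        rw [indicator_of_mem hmem]
        have h1 := (hasDerivAt_iff_tendsto_slope_zero.1 (tf_deriv_in hx hlt a)).comp htt
        have h2 := h1.const_mul (Real.sign (w x))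
        have h3 : Real.sign (w x) * -(ND x a) = -(Real.sign (w x) * ND x a) := by ring
        rw [h3] at h2
        refine h2.congr fun n => ?_
        simp [F]
      · have hmem : x ∉ closedBall (0:V) 1 := by
          rw [mem_closedBall, dist_zero_right, not_le]; exact hgt
        rw [indicator_of_notMem hmem]
        have h1 := (hasDerivAt_iff_tendsto_slope_zero.1 (tf_deriv_out hgt a)).comp htt
        have h2 := h1.const_mul (Real.sign (w x))
        rw [mul_zero] at h2
        refine h2.congr fun n => ?_
        simp [F]
  simp_rw [hF0] at hlim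
  have h1 := tendsto_nhds_unique hlim tendsto_const_nhds
  rw [integral_indicator isClosed_closedBall.measurableSet, integral_neg] at h1
  linarith

end TC
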