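import Pool.Agent.Helper36.TC.Defs

set_option autoImplicit false
set_option linter.unusedSectionVars false

open MeasureTheory Set Metric Module
open scoped Topology

namespace TC

variable {V : Type*} [NormedAddCommGroup V] [NormedSpace ℝ V] [FiniteDimensional ℝ V] [MeasurableSpace V] [BorelSpace V]

theorem hull_eq_isCompact_segment (p : V) : IsCompact (segment ℝ (0:V) p) := by
  rw [segment_eq_image]
  exact isCompact_Icc.image (by fun_prop)

theorem hull_eq (p : V) :
    convexHull ℝ (closedBall (0:V) 1 ∪ closedBall p 1) = cthickening 1 (segment ℝ 0 p) := by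
  apply Subset.antisymm
  · apply convexHull_min
    · apply union_subset
      · exact closedBall_subset_cthickening (left_mem_segment ℝ 0 p) 1
      · exact closedBall_subset_cthickening (right_mem_segment ℝ 0 p) 1
    · exact (convex_segment 0 p).cthickening 1
  · rw [(hull_eq_isCompact_segment p).cthickening_eq_biUnion_closedBall zero_le_one]
    intro y hy
    simp only [mem_iUnion] at hy
    obtain ⟨x, hx, hy⟩ := hy
    rw [segment_eq_image] at hx
    obtain ⟨r, ⟨hr0, hr1⟩, rfl⟩ := hx
    simp only [smul_zero, zero_add] at hy
    rw [mem_closedBall, dist_eq_norm] at hy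
    have h1 : y - r • p ∈ closedBall (0:V) 1 ∪ closedBall p 1 := by
      left
      rw [mem_closedBall, dist_eq_norm, sub_zero]
      exact hy
    have h2 : p + (y - r • p) ∈ closedBall (0:V) 1 ∪ closedBall p 1 := by
      right
      rw [mem_closedBall, dist_eq_norm, add_sub_cancel_left]
      exact hy
    have h3 := (convex_convexHull ℝ (closedBall (0:V) 1 ∪ closedBall p 1))
      (subset_convexHull ℝ _ h1) (subset_convexHull ℝ _ h2) (sub_nonneg.2 hr1) hr0 (by ring)
    have h4 : (1 - r) • (y - r • p) + r • (p + (y - r • p)) = y := by
      rw [smul_add, sub_smul, one_smul]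
      abel
    rwa [h4] at h3

end TC
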